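import Pool.Agent.H45.SF.Asm
import Pool.Agent.H60.SF.W3

/-!
# SCFA and diamond-star hold together in a model of ZFC (from a supercompact cardinal)

The definitions used by the statement are in `Pool/Agent/H45/SF/Stmt.lean` (formulas, ZFC, the
constructible hierarchies, full models, subcomplete forcing, SCFA, diamond-star, supercompact
cardinals) and `Pool/Agent/H45/SF/Core.lean` (`SubCore`, `SCFAc`: the weakest reading of
subcompleteness and its forcing axiom).
-/

open scoped Cardinal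

/-- If there is a supercompact cardinal, then there is a countable transitive model `W` of ZFC in
which the subcomplete forcing axiom and diamond-star hold; in `W` even the forcing axiom for the
weakest reading of subcompleteness holds. -/
theorem Pool.Agent.Results.MP_3b3fc8_lc.SCFAWithDiamondStar.result
    (h : ∃ κ : Cardinal.{0}, SF.Supercompact κ) :
    ∃ W : SF.V, (W : Set SF.V).Countable ∧ SF.ZFC (· ∈ W) ∧ SF.SCFA (· ∈ W) ∧
      SF.SCFAc (· ∈ W) ∧ SF.DiamondStar (· ∈ W) :=
  SF.Asm.a_WZ2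
    (SF.H60.w3p SF.SubCore SF.Asm.a_CLc SF.Asm.a_QD SF.Asm.a_QE SF.Asm.a_QF SF.Asm.a_QH SF.Asm.a_QI
      SF.Asm.a_XN SF.Asm.a_WA SF.Asm.a_WC SF.Asm.a_WE SF.Asm.a_WF SF.Asm.a_WG SF.Asm.a_WH
      SF.Asm.a_WJ SF.Asm.a_WK SF.Asm.a_WL SF.Asm.a_FE SF.Asm.a_FI SF.Asm.a_FJ SF.Asm.a_FL)
    (SF.Asm.a_RE (SF.Asm.a_RA h))
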